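import Pool.Agent.H71.FUL.Fub

/-!
# Lower bounds at later windows

`low_step`: a lower bound given the record at `w` is a lower bound given the record at `x`, if the
record at `x` knows few bits of a far quantity behind a near quantity. `low_cond`: a part of the
quantity goes to the condition. `vfC_low`: `VfC` at `w` from a lower bound given the record at `x`.
-/

set_option autoImplicit false

namespace Pool.NJ88

open Finset Real MvPolynomial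
open Pool.Agent.H49.Ent Pool.Agent.H32.Dense Pool.STK Pool.KA Pool.KSAT Pool.K2S Pool.PB Pool.S6C
open Pool.GEN Pool.RCD Pool.LA91 Pool.AVG96 Pool.AVG57
open Pool.AVG71 (MI_eq MI_eq')
open Pool.KVA (MI)
open Pool.FUL71 (mx_any)

section ent

variable {Ω 𝓝 𝓛 𝓗 𝓚 𝓕 𝓡 𝓩 𝓤 𝓐 𝓑 𝓒 𝓓 𝓨 : Type} [Fintype Ω] {p : Ω → ℝ}

/-- **A quantity behind a far quantity**: the entropies. -/
theorem step_ent (h0 : ∀ ω, 0 ≤ p ω) (n : Ω → 𝓝) (h2 : Ω → 𝓚) (nk : Ω → 𝓛) (far : Ω → 𝓕)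
    (zx : Ω → 𝓡) (Z : Ω → 𝓒) {ε ε' : ℝ} (k3 : MI p zx far (fun ω => (nk ω, Z ω)) ≤ ε)
    (k1 : CH p nk (fun ω => (n ω, Z ω)) ≤ ε') (k4 : CH p n (fun ω => (far ω, Z ω)) ≤ ε')
    (k5 : CH p h2 (fun ω => (far ω, Z ω)) ≤ ε') :
    CH p h2 (fun ω => (n ω, Z ω)) ≤ CH p h2 (fun ω => (zx ω, (n ω, Z ω))) + ε + 3 * ε' := by
  have e1 := MI_eq' h0 zx h2 (fun ω => (n ω, Z ω))
  have e2 := MI_eq h0 zx h2 (fun ω => (n ω, Z ω))
  have e3 := MI_eq h0 zx far (fun ω => (nk ω, Z ω))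
  have a1 := CH_le_add h0 zx nk (fun ω => (n ω, Z ω))
  have a1' : CH p zx (fun ω => (nk ω, (n ω, Z ω))) ≤ CH p zx (fun ω => (nk ω, Z ω)) :=
    CH_mono_cond h0 fun ω ω' _ _ hh => by
      simp only [Prod.mk.injEq] at hh ⊢
      exact ⟨hh.1, hh.2.2⟩
  have a2 := CH_le_add h0 zx n (fun ω => (far ω, Z ω))
  have a3 := CH_le_add h0 zx h2 (fun ω => (n ω, (far ω, Z ω)))
  have a3' : CH p h2 (fun ω => (n ω, (far ω, Z ω))) ≤ CH p h2 (fun ω => (far ω, Z ω)) :=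
    CH_mono_cond h0 fun _ _ _ _ hh => (Prod.ext_iff.mp hh).2
  have a4 : CH p zx (fun ω => (h2 ω, (n ω, (far ω, Z ω)))) ≤
      CH p zx (fun ω => (h2 ω, (n ω, Z ω))) :=
    CH_mono_cond h0 fun ω ω' _ _ hh => by
      simp only [Prod.mk.injEq] at hh ⊢
      exact ⟨hh.1, hh.2.1, hh.2.2.2⟩
  have a5 : CH p zx (fun ω => (far ω, (nk ω, Z ω))) ≤ CH p zx (fun ω => (far ω, Z ω)) :=
    CH_mono_cond h0 fun ω ω' _ _ hh => by
      simp only [Prod.mk.injEq] at hh ⊢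
      exact ⟨hh.1, hh.2.2⟩
  linarith

/-- **The moved place is full**: the entropies. -/
theorem vf_ent (h0 : ∀ ω, 0 ≤ p ω) (n : Ω → 𝓝) (h1 : Ω → 𝓗) (h2 : Ω → 𝓚) (zx : Ω → 𝓡)
    (zw : Ω → 𝓩) (u : Ω → 𝓤) (a : Ω → 𝓐) (b : Ω → 𝓒) (d : Ω → 𝓓) (y : Ω → 𝓨) {θ ε' : ℝ}
    (k1 : θ ≤ CH p h2 (fun ω => (zx ω, ((n ω, h1 ω), y ω)))) (k6 : CH p zw zx ≤ ε')
    (k7 : CH p u (fun ω => ((n ω, h1 ω), (zw ω, y ω))) ≤ ε')
    (k8 : CH p a (fun ω => ((n ω, h1 ω), (zw ω, y ω))) ≤ ε')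
    (k9 : CH p d (fun ω => ((n ω, h1 ω), (zw ω, y ω))) ≤ ε')
    (k10 : CH p h2 (fun ω => (((n ω, h1 ω), b ω), (zw ω, y ω))) ≤ ε') :
    θ - 5 * ε' ≤ CH p b (fun ω => (a ω, (d ω, (zx ω, (zw ω, (u ω, y ω)))))) := by
  obtain ⟨W, hW⟩ : ∃ W : Ω → 𝓡 × (𝓝 × 𝓗) × 𝓨, W = fun ω => (zx ω, ((n ω, h1 ω), y ω)) :=
    ⟨_, rfl⟩
  have t0 : CH p h2 (fun ω => (zx ω, ((n ω, h1 ω), y ω))) = CH p h2 W := by rw [hW]
  have t1 := CH_le_add h0 h2 zw W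
  have t2 : CH p zw W ≤ CH p zw zx := CH_mono_cond h0 fun ω ω' _ _ hh => by
    rw [hW] at hh
    exact (Prod.ext_iff.mp hh).1
  have hy : ∀ ω ω', (zw ω, W ω) = (zw ω', W ω') →
      zw ω = zw ω' ∧ zx ω = zx ω' ∧ h1 ω = h1 ω' ∧ n ω = n ω' ∧ y ω = y ω' := by
    intro ω ω' hh
    rw [hW] at hh
    simp only [Prod.mk.injEq] at hh
    exact ⟨hh.1, hh.2.1, hh.2.2.1.2, hh.2.2.1.1, hh.2.2.2⟩
  have t3 := CH_le_add h0 h2 u (fun ω => (zw ω, W ω))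
  have t4 : CH p u (fun ω => (zw ω, W ω)) ≤ CH p u (fun ω => ((n ω, h1 ω), (zw ω, y ω))) :=
    CH_mono_cond h0 fun ω ω' _ _ hh => by
      obtain ⟨q1, q2, q3, q4, q5⟩ := hy ω ω' hh
      simp only [Prod.mk.injEq]
      exact ⟨⟨q4, q3⟩, q1, q5⟩
  have t5 := CH_le_add h0 h2 a (fun ω => (u ω, (zw ω, W ω)))
  have t6 : CH p a (fun ω => (u ω, (zw ω, W ω))) ≤
      CH p a (fun ω => ((n ω, h1 ω), (zw ω, y ω))) :=
    CH_mono_cond h0 fun ω ω' _ _ hh => by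
      obtain ⟨q1, q2, q3, q4, q5⟩ := hy ω ω' (Prod.ext_iff.mp hh).2
      simp only [Prod.mk.injEq]
      exact ⟨⟨q4, q3⟩, q1, q5⟩
  have t7 := CH_le_add h0 h2 d (fun ω => (a ω, (u ω, (zw ω, W ω))))
  have t8 : CH p d (fun ω => (a ω, (u ω, (zw ω, W ω)))) ≤
      CH p d (fun ω => ((n ω, h1 ω), (zw ω, y ω))) :=
    CH_mono_cond h0 fun ω ω' _ _ hh => by
      obtain ⟨q1, q2, q3, q4, q5⟩ := hy ω ω' (Prod.ext_iff.mp (Prod.ext_iff.mp hh).2).2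
      simp only [Prod.mk.injEq]
      exact ⟨⟨q4, q3⟩, q1, q5⟩
  have t9 := CH_le_add h0 h2 b (fun ω => (d ω, (a ω, (u ω, (zw ω, W ω)))))
  have t10 : CH p h2 (fun ω => (b ω, (d ω, (a ω, (u ω, (zw ω, W ω)))))) ≤
      CH p h2 (fun ω => (((n ω, h1 ω), b ω), (zw ω, y ω))) :=
    CH_mono_cond h0 fun ω ω' _ _ hh => by
      simp only [Prod.mk.injEq] at hh
      obtain ⟨q1, q2, q3, q4, q5⟩ := hy ω ω' (Prod.ext hh.2.2.2.2.1 hh.2.2.2.2.2)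
      simp only [Prod.mk.injEq]
      exact ⟨⟨⟨q4, q3⟩, hh.1⟩, q1, q5⟩
  have t11 : CH p b (fun ω => (d ω, (a ω, (u ω, (zw ω, W ω))))) ≤
      CH p b (fun ω => (a ω, (d ω, (zx ω, (zw ω, (u ω, y ω)))))) :=
    CH_mono_cond h0 fun ω ω' _ _ hh => by
      simp only [Prod.mk.injEq] at hh
      obtain ⟨q1, q2, q3, q4, q5⟩ := hy ω ω' (Prod.ext hh.2.2.2.1 hh.2.2.2.2)
      simp only [Prod.mk.injEq]
      exact ⟨hh.2.1, hh.1, q2, q1, hh.2.2.1, q5⟩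
  linarith

end ent

variable {m : ℕ} {𝓝 𝓛 𝓗 𝓚 𝓕 : Type} {α β γ : ∀ J : ℕ, Fam m J → Type}
  {f : ∀ (J : ℕ) (F : Fam m J), F.Ω → α J F} {g : ∀ (J : ℕ) (F : Fam m J), F.Ω → β J F}
  {y : ∀ (J : ℕ) (F : Fam m J), F.Ω → γ J F} {S : PCl m}

/-- **A lower bound at a later window.** -/
theorem low_step
    (hpos : ∀ (τ : ℝ) (J : ℕ) (F : Fam m J) (A : F.Ω → Prop), S.St τ J F A → 0 < Pe F.p A)
    {w x : ℝ} {Qn : Qt m 𝓝} {Q2 : Qt m 𝓚} {Qk : Qt m 𝓛} {Qf : Qt m 𝓕} {θ ε : ℝ}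
    (hL : LowN S f (vg w) y Qn Q2 θ) (hM : MIw S f y w x Qf Qk ε)
    (f1 : Few S f (vg w) y Qn Qk) (f2 : Few S f (vg w) y Qf Qn) (f3 : Few S f (vg w) y Qf Q2)
    (xk : Exs S Qk) (xf : Exs S Qf) : LowN S f (vg x) y Qn Q2 (θ - ε) := by
  intro h' hh'
  obtain ⟨h, hh⟩ : ∃ h : ℝ, h = h' / 8 := ⟨_, rfl⟩
  have hh0 : 0 < h := by rw [hh]; positivity
  obtain ⟨k1, hk1, e1, he1, H1⟩ := hL h hh0
  obtain ⟨k2, hk2, e2, he2, H2⟩ := hM h hh0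
  obtain ⟨e3, he3, H3⟩ := f1.mx hpos h hh0
  obtain ⟨e4, he4, H4⟩ := f2.mx hpos h hh0
  obtain ⟨e5, he5, H5⟩ := f3.mx hpos h hh0
  obtain ⟨e₀, he₀, l1, l2, l3, l4, l5⟩ : ∃ e₀ : ℝ, 0 < e₀ ∧ e₀ ≤ e1 ∧ e₀ ≤ e2 ∧ e₀ ≤ e3 ∧
      e₀ ≤ e4 ∧ e₀ ≤ e5 :=
    ⟨min e1 (min e2 (min e3 (min e4 e5))), by positivity, min_le_left _ _,
      (min_le_right _ _).trans (min_le_left _ _),
      (min_le_right _ _).trans ((min_le_right _ _).trans (min_le_left _ _)),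
      (min_le_right _ _).trans ((min_le_right _ _).trans ((min_le_right _ _).trans
        (min_le_left _ _))),
      (min_le_right _ _).trans ((min_le_right _ _).trans ((min_le_right _ _).trans
        (min_le_right _ _)))⟩
  obtain ⟨Ka, Ma, hxk⟩ := xk e₀ he₀
  obtain ⟨Kb, Mb, hxf⟩ := xf e₀ he₀
  refine ⟨k2, hk2, e₀, he₀, fun K => ?_⟩
  obtain ⟨K', q0, q1, q2⟩ : ∃ K' : ℕ, K ≤ K' ∧ Ka ≤ K' ∧ Kb ≤ K' :=
    ⟨K + Ka + Kb, by omega, by omega, by omega⟩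
  refine Bas.mono 0 ((((H1 K').and (H2 K')).and ((H3 K').and (H4 K'))).and
    (((H5 K').and (pos_bas hpos)).and (hxk.and hxf))) ?_
  rintro J - F A ⟨⟨⟨H1, H2⟩, H3, H4⟩, ⟨H5, hA⟩, ⟨uk, huk, -⟩, uf, huf, -⟩ Vx zx hzx un u2 hun hu2
  have hp := (isLaw_cond F.isLaw hA).nonneg
  obtain ⟨Vw, zw, hzw⟩ := mx_any f (vg w) (le_refl (0 : ℝ)) hA
  have Wz : ∀ {k : ℝ}, 0 ≤ k → Mx f (vg w) k F A zw := fun hk => hzw.le' hk
  have m1 := H1 Vw zw (Wz hk1.le) un u2 (Qn.mono q0 l1 hun) (Q2.mono q0 l1 hu2)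
  have m2 := H2 Vw Vx zw zx (Wz hk2.le) hzx uf uk (Qf.mono q2 l2 huf) (Qk.mono q1 l2 huk)
  have m3 := H3 Vw zw (Wz (by positivity)) un uk (Qn.mono q0 l3 hun) (Qk.mono q1 l3 huk)
  have m4 := H4 Vw zw (Wz (by positivity)) uf un (Qf.mono q2 l4 huf) (Qn.mono q0 l4 hun)
  have m5 := H5 Vw zw (Wz (by positivity)) uf u2 (Qf.mono q2 l5 huf) (Q2.mono q0 l5 hu2)
  have key := step_ent hp un u2 uk uf zx (fun ω => (zw ω, y J F ω)) m2 m3 m4 m5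
  have s1 : CH (Pool.Agent.H49.Ent.cond F.p A True) u2 (fun ω => (zw ω, (un ω, y J F ω))) ≤
      CH (Pool.Agent.H49.Ent.cond F.p A True) u2 (fun ω => (un ω, (zw ω, y J F ω))) :=
    CH_mono_cond hp fun ω ω' _ _ hh => by
      simp only [Prod.mk.injEq] at hh ⊢
      exact ⟨hh.2.1, hh.1, hh.2.2⟩
  have s2 : CH (Pool.Agent.H49.Ent.cond F.p A True) u2
      (fun ω => (zx ω, (un ω, (zw ω, y J F ω)))) ≤
      CH (Pool.Agent.H49.Ent.cond F.p A True) u2 (fun ω => (zx ω, (un ω, y J F ω))) :=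
    CH_mono_cond hp fun ω ω' _ _ hh => by
      simp only [Prod.mk.injEq] at hh ⊢
      exact ⟨hh.1, hh.2.1, hh.2.2.2⟩
  have s3 : (θ - ε - h') * J ≤ (θ - h) * J - (ε + h) * J - 3 * (h * J) := by
    have hJ0 : (0 : ℝ) ≤ J := Nat.cast_nonneg J
    have e : (θ - h) * J - (ε + h) * J - 3 * (h * J) = (θ - ε - 5 * h) * J := by ring
    rw [e]
    refine mul_le_mul_of_nonneg_right ?_ hJ0
    rw [hh]
    linarith
  linarith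

/-- **A part of the quantity goes to the condition.** -/
theorem low_cond
    (hpos : ∀ (τ : ℝ) (J : ℕ) (F : Fam m J) (A : F.Ω → Prop), S.St τ J F A → 0 < Pe F.p A)
    {Qn : Qt m 𝓝} {Q1 : Qt m 𝓗} {Q2 : Qt m 𝓚} {θ δ : ℝ}
    (hL : LowN S f g y Qn (Q1.prod Q2) θ) (hD : FewD S f g y Qn Q1 δ) :
    LowN S f g y (Qn.prod Q1) Q2 (θ - δ) := by
  intro h' hh'
  obtain ⟨h, hh⟩ : ∃ h : ℝ, h = h' / 2 := ⟨_, rfl⟩
  have hh0 : 0 < h := by rw [hh]; positivity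
  obtain ⟨k1, hk1, e1, he1, H1⟩ := hL h hh0
  obtain ⟨e2, he2, H2⟩ := hD.mx hpos h hh0
  refine ⟨min k1 (h / 2), by positivity, min e1 e2, by positivity, fun K =>
    Bas.mono 0 (((H1 K).and (H2 K)).and (pos_bas hpos)) ?_⟩
  rintro J - F A ⟨⟨H1, H2⟩, hA⟩ V z hz u u2 ⟨hun, hu1⟩ hu2
  have hp := (isLaw_cond F.isLaw hA).nonneg
  have m1 := H1 V z (hz.le' (min_le_left _ _)) (fun ω => (u ω).1) (fun ω => ((u ω).2, u2 ω))
    (Qn.mono le_rfl (min_le_left _ _) hun) ⟨Q1.mono le_rfl (min_le_left _ _) hu1,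
      Q2.mono le_rfl (min_le_left _ _) hu2⟩
  have m2 := H2 V z (hz.le' (min_le_right _ _)) (fun ω => (u ω).1) (fun ω => (u ω).2)
    (Qn.mono le_rfl (min_le_right _ _) hun) (Q1.mono le_rfl (min_le_right _ _) hu1)
  have s1 := CH_le_add hp (fun ω => ((u ω).2, u2 ω)) (fun ω => (u ω).2)
    (fun ω => (z ω, ((u ω).1, y J F ω)))
  have s2 : CH (Pool.Agent.H49.Ent.cond F.p A True) (fun ω => (u ω).2)
      (fun ω => (z ω, ((u ω).1, y J F ω))) ≤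
      CH (Pool.Agent.H49.Ent.cond F.p A True) (fun ω => (u ω).2)
        (fun ω => ((u ω).1, (z ω, y J F ω))) :=
    CH_mono_cond hp fun ω ω' _ _ hh => by
      simp only [Prod.mk.injEq] at hh ⊢
      exact ⟨hh.2.1, hh.1, hh.2.2⟩
  have s3 := CH_le_add hp (fun ω => ((u ω).2, u2 ω)) u2
    (fun ω => ((u ω).2, (z ω, ((u ω).1, y J F ω))))
  have s4 : CH (Pool.Agent.H49.Ent.cond F.p A True) (fun ω => ((u ω).2, u2 ω))
      (fun ω => (u2 ω, ((u ω).2, (z ω, ((u ω).1, y J F ω))))) = 0 :=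
    CH_eq_zero hp fun ω ω' _ _ hh => by
      simp only [Prod.mk.injEq] at hh ⊢
      exact ⟨hh.2.1, hh.1⟩
  have s5 : CH (Pool.Agent.H49.Ent.cond F.p A True) u2
      (fun ω => ((u ω).2, (z ω, ((u ω).1, y J F ω)))) ≤
      CH (Pool.Agent.H49.Ent.cond F.p A True) u2 (fun ω => (z ω, (u ω, y J F ω))) :=
    CH_mono_cond hp fun ω ω' _ _ hh => by
      simp only [Prod.mk.injEq] at hh ⊢
      exact ⟨hh.2.1, Prod.ext hh.2.2.1 hh.1, hh.2.2.2⟩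
  have s6 : (θ - δ - h') * J = (θ - h) * J - (δ + h) * J := by
    rw [hh]
    ring
  linarith

/-- **The moved place is full** at `w`, given the record of `x`: from a lower bound given the record
of `x`. -/
theorem vfC_low
    (hpos : ∀ (τ : ℝ) (J : ℕ) (F : Fam m J) (A : F.Ω → Prop), S.St τ J F A → 0 < Pe F.p A)
    {c : ℕ → Fin m} {r₀ v : ℕ} {w x : ℝ} (hwx : w ≤ x) (hx1 : x ≤ 1)
    {Qn : Qt m 𝓝} {Q1 : Qt m 𝓗} {Q2 : Qt m 𝓚} {p n n' : ℕ → ℝ} {Na Nb Nd θ₁ θ : ℝ}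
    (hL : LowN S (fun J F => ptr F J) (vg x) y (Qn.prod Q1) Q2 θ₁)
    (g1 : Few S (fun J F => ptr F J) (vg w) y (Qn.prod Q1) (jetQ m c r₀ v w p (nd n n' w)))
    (g2 : Few S (fun J F => ptr F J) (vg w) y (Qn.prod Q1)
      (qJet m ((range v).image c) (c v) 0 w (p v) Na))
    (g3 : Few S (fun J F => ptr F J) (vg w) y (Qn.prod Q1)
      (qJet m ((range v).image c) (c v) 1 w (p v) Nd))
    (g4 : Few S (fun J F => ptr F J) (vg w) y ((Qn.prod Q1).prod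
      (qJet m ((range v).image c) (c v) 0 w (p v) Nb)) Q2)
    (xn : Exs S Qn) (x1 : Exs S Q1) (x2 : Exs S Q2)
    (hθ : (Nb - Na) * Real.log 2 - θ < θ₁) :
    VfC S y c r₀ v w x p n n' Na Nb Nd θ := by
  obtain ⟨h, hh⟩ : ∃ h : ℝ, h = (θ₁ - ((Nb - Na) * Real.log 2 - θ)) / 6 := ⟨_, rfl⟩
  have hh0 : 0 < h := by rw [hh]; linarith
  obtain ⟨k1, hk1, e1, he1, H1⟩ := hL h hh0
  obtain ⟨e6, he6, H6⟩ := g1.mx hpos h hh0
  obtain ⟨e7, he7, H7⟩ := g2.mx hpos h hh0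
  obtain ⟨e8, he8, H8⟩ := g3.mx hpos h hh0
  obtain ⟨e9, he9, H9⟩ := g4.mx hpos h hh0
  obtain ⟨e₀, he₀, l1, l6, l7, l8, l9⟩ : ∃ e₀ : ℝ, 0 < e₀ ∧ e₀ ≤ e1 ∧ e₀ ≤ e6 ∧ e₀ ≤ e7 ∧
      e₀ ≤ e8 ∧ e₀ ≤ e9 :=
    ⟨min e1 (min e6 (min e7 (min e8 e9))), by positivity, min_le_left _ _,
      (min_le_right _ _).trans (min_le_left _ _),
      (min_le_right _ _).trans ((min_le_right _ _).trans (min_le_left _ _)),
      (min_le_right _ _).trans ((min_le_right _ _).trans ((min_le_right _ _).trans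
        (min_le_left _ _))),
      (min_le_right _ _).trans ((min_le_right _ _).trans ((min_le_right _ _).trans
        (min_le_right _ _)))⟩
  obtain ⟨Ka, Ma, hxn⟩ := xn e₀ he₀
  obtain ⟨Kb, Mb, hx1'⟩ := x1 e₀ he₀
  obtain ⟨Kc, Mc, hx2'⟩ := x2 e₀ he₀
  refine ⟨min k1 (h / 2), by positivity, e₀, he₀, fun K => ?_⟩
  obtain ⟨K', q0, q1, q2, q3⟩ : ∃ K' : ℕ, K ≤ K' ∧ Ka ≤ K' ∧ Kb ≤ K' ∧ Kc ≤ K' :=
    ⟨K + Ka + Kb + Kc, by omega, by omega, by omega, by omega⟩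
  refine Bas.mono 0 ((((H1 K').and (H6 K')).and ((H7 K').and (H8 K'))).and
    (((H9 K').and (pos_bas hpos)).and ((hxn.and hx1').and hx2'))) ?_
  rintro J - F A ⟨⟨⟨H1, H6⟩, H7, H8⟩, ⟨H9, hA⟩, ⟨⟨nn, hnn, -⟩, u1, hu1, -⟩, u2, hu2, -⟩
    V₁ V₂ z zx hz hzx u₀ a bb d hu₀ ha hb hd
  have hp := (isLaw_cond F.isLaw hA).nonneg
  have hJ0 : (0 : ℝ) ≤ J := Nat.cast_nonneg J
  have Wz : Mx (fun J F => ptr F J) (vg w) (h / 2) F A z := hz.le' (min_le_right _ _)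
  have Xn : ∀ {e : ℝ}, e₀ ≤ e → Qn.P K' e J F A nn := fun he => Qn.mono q1 he hnn
  have X1 : ∀ {e : ℝ}, e₀ ≤ e → Q1.P K' e J F A u1 := fun he => Q1.mono q2 he hu1
  have X2 : ∀ {e : ℝ}, e₀ ≤ e → Q2.P K' e J F A u2 := fun he => Q2.mono q3 he hu2
  have m1 := H1 V₂ zx (hzx.le' (min_le_left _ _)) (fun ω => (nn ω, u1 ω)) u2 ⟨Xn l1, X1 l1⟩
    (X2 l1)
  have m6 := H6 V₁ z Wz (fun ω => (nn ω, u1 ω)) u₀ ⟨Xn l6, X1 l6⟩
    ((jetQ m c r₀ v w p (nd n n' w)).mono q0 l6 hu₀)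
  have m7 := H7 V₁ z Wz (fun ω => (nn ω, u1 ω)) a ⟨Xn l7, X1 l7⟩
    ((qJet m ((range v).image c) (c v) 0 w (p v) Na).mono q0 l7 ha)
  have m8 := H8 V₁ z Wz (fun ω => (nn ω, u1 ω)) d ⟨Xn l8, X1 l8⟩
    ((qJet m ((range v).image c) (c v) 1 w (p v) Nd).mono q0 l8 hd)
  have m9 := H9 V₁ z Wz (fun ω => ((nn ω, u1 ω), bb ω)) u2 ⟨⟨Xn l9, X1 l9⟩,
    (qJet m ((range v).image c) (c v) 0 w (p v) Nb).mono q0 l9 hb⟩ (X2 l9)
  have m10 : CH (Pool.Agent.H49.Ent.cond F.p A True) z zx ≤ h * J := by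
    refine (hzx.2 _ z (hz.1.mono ⟨fun t => t, fun _ _ => rfl⟩ ?_)).trans
      (mul_le_mul_of_nonneg_right ((min_le_right _ _).trans (by linarith)) hJ0)
    obtain ⟨φ, hφ⟩ := vg_mono hwx hx1 J F
    exact ⟨φ, fun ω _ => hφ ω⟩
  have key := vf_ent hp nn u1 u2 zx z u₀ a bb d (y J F) m1 m10 m6 m7 m8 m9
  refine le_trans ?_ key
  have e1 : (θ₁ - h) * J - 5 * (h * J) = (θ₁ - 6 * h) * J := by ring
  rw [e1]
  refine mul_le_mul_of_nonneg_right ?_ hJ0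
  rw [hh]
  linarith

end Pool.NJ88
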